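import Pool.Agent.H91.PerShad

set_option autoImplicit false

open ZeroAtInfty H91.PerShad in
theorem Pool.Agent.Results.MP_2e038a_an.LpIffC0.result :
    ∀ (𝕜 : Type) [RCLike 𝕜] (p : ENNReal) [Fact (1 ≤ p)], p ≠ ⊤ →
    ∀ (w : ℤ → 𝕜) (m M : ℝ), 0 < m → (∀ n, m ≤ ‖w n‖ ∧ ‖w n‖ ≤ M) →
    ∃ (T : LP 𝕜 p → LP 𝕜 p) (S : CZ 𝕜 → CZ 𝕜),
      IsShift (fun x n => x.1 n) w T ∧ IsShift (fun x n => x.toFun n) w S ∧ (PSP T ↔ PSP S) :=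
  main
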